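import Pool.Agent.Q38.SK.Fac
import Pool.Agent.Q38.SK.Rate
import Pool.Agent.Q38.SK.Neg2

set_option autoImplicit false

/-!
# The Skolem Problem beyond simple recurrences: recurrences with double roots

The starting results on this problem which treat almost all initial values need a squarefree
characteristic polynomial: then primes dividing no term certify that there is no zero. Here the
characteristic roots may be double (multiplicity at most two, any order).

* At most one double root (for instance `(X - 1) ^ 2 * g`, `g` squarefree): for almost all initial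
  values some prime `p ≤ log H` divides no term, with an explicit form of the rate, uniformly in the
  centre of the box; hence the universal errorless algorithm halts for almost all initial values.
* At least two double roots: this fails; for a positive proportion of the initial values every
  prime divides some term.

Proof idea. Let `ρ` be the product of the distinct irreducible factors and `w = ρ(E) u`, `E` the
shift. Modulo `p` the sequence `u` is a polynomial of degree at most one in `n` with coefficients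
of period prime to `p`, and the coefficient of `n` is, up to a unit of the ring of sequences
with the given characteristic roots, `w`. So `p` divides a term unless `p` divides all terms
of `w`. If there is one double root then `w` is geometric and `p ∣ w` means `p ∣ w_0`, one linear
condition; the primes with that property and with few zeros of the simple part are handled by the
divergence of `∑ 1 / p` over a set of splitting primes. If there are two double roots then `p ∣ w`
implies two independent linear conditions, and `∑ 1 / p ^ 2` converges.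
-/

namespace Pool.Agent.Results.MP_8d13b5_lc.DoubleRoots

open Polynomial Pool.Agent.H884R2.Sko Pool.Agent.H692R2.USS
open scoped Classical

theorem chi_coeff_zero {d : ℕ} (hd : 1 ≤ d) (c : Fin d → ℤ) (hc : c ⟨d - 1, by omega⟩ ≠ 0) :
    (chi (fun i => c (Fin.rev i))).coeff 0 ≠ 0 := by
  have := chi_coeff (fun i => c (Fin.rev i)) ⟨0, by omega⟩
  simp only at this
  rw [this, neg_ne_zero]
  have e : Fin.rev (⟨0, by omega⟩ : Fin d) = ⟨d - 1, by omega⟩ := by
    apply Fin.ext
    rw [Fin.val_rev]
  rw [e]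
  exact hc

theorem ex_iff {d : ℕ} (c a : Fin d → ℤ) (p : ℕ) :
    (∃ u, IsSeq c a u ∧ ∃ n, (p : ℤ) ∣ u n) ↔
      ∃ n, (p : ℤ) ∣ seq (fun i => c (Fin.rev i)) a n := by
  constructor
  · rintro ⟨u, hu, n, hn⟩
    rw [(isSeq_iff c a u).1 hu n] at hn
    exact ⟨n, hn⟩
  · rintro ⟨n, hn⟩
    exact ⟨_, (isSeq_iff c a _).2 fun _ => rfl, n, hn⟩

/-- from the rate to the limit -/
theorem density {d : ℕ} (c : Fin d → ℤ) (P : (Fin d → ℤ) → Prop)
    (hP : ∀ a u, IsSeq c a u → (∃ q : ℕ, q.Prime ∧ ∀ n, ¬ (q : ℤ) ∣ u n) → P a)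
    (hr : ∃ δ : ℝ, 0 < δ ∧ ∃ H₀ : ℕ, ∀ H : ℕ, H₀ ≤ H → ∀ b : Fin d → ℤ,
      (((box b H).filter (fun a => ∀ p : ℕ, p.Prime → (p : ℝ) ≤ Real.log H →
        ∃ u, IsSeq c a u ∧ ∃ n, (p : ℤ) ∣ u n)).card : ℝ) ≤
        (2 * H + 1) ^ d * (Real.log (Real.log H)) ^ (-δ))
    (b : ℕ → Fin d → ℤ) :
    Filter.Tendsto (fun H : ℕ => (((box (b H) H).filter P).card : ℝ) / (2 * H + 1) ^ d)
      Filter.atTop (nhds 1) := by
  obtain ⟨δ, hδ, H₀, h⟩ := hr
  have hll : Filter.Tendsto (fun H : ℕ => Real.log (Real.log H)) Filter.atTop Filter.atTop :=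
    Real.tendsto_log_atTop.comp (Real.tendsto_log_atTop.comp tendsto_natCast_atTop_atTop)
  have hz : Filter.Tendsto (fun H : ℕ => (Real.log (Real.log H)) ^ (-δ)) Filter.atTop (nhds 0) :=
    (tendsto_rpow_neg_atTop hδ).comp hll
  have hlow : Filter.Tendsto (fun H : ℕ => 1 - (Real.log (Real.log H)) ^ (-δ)) Filter.atTop
      (nhds 1) := by
    simpa using tendsto_const_nhds.sub hz
  refine tendsto_of_tendsto_of_tendsto_of_le_of_le' hlow tendsto_const_nhds ?_ ?_
  · filter_upwards [Filter.eventually_ge_atTop H₀] with H hH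
    have hpos : (0 : ℝ) < (2 * (H : ℝ) + 1) ^ d := by positivity
    rw [le_div_iff₀ hpos]
    have h1 := h H hH (b H)
    have h2 : (box (b H) H).filter (fun a => ¬ P a) ⊆
        (box (b H) H).filter (fun a => ∀ p : ℕ, p.Prime → (p : ℝ) ≤ Real.log H →
        ∃ u, IsSeq c a u ∧ ∃ n, (p : ℤ) ∣ u n) := by
      intro a ha
      rw [Finset.mem_filter] at ha ⊢
      refine ⟨ha.1, fun p hp _ => ?_⟩
      obtain ⟨u, hu⟩ := exists_isSeq c a
      refine ⟨u, hu, ?_⟩
      by_contra hcon
      push Not at hcon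
      exact ha.2 (hP a u hu ⟨p, hp, hcon⟩)
    have h3 : ((box (b H) H).filter P).card + ((box (b H) H).filter (fun a => ¬ P a)).card =
        (2 * H + 1) ^ d := by
      rw [Finset.card_filter_add_card_filter_not, card_box]
    have h4 : (((box (b H) H).filter P).card : ℝ) + ((box (b H) H).filter (fun a => ¬ P a)).card =
        (2 * (H : ℝ) + 1) ^ d := by exact_mod_cast h3
    have h5 : ((((box (b H) H).filter (fun a => ¬ P a)).card : ℕ) : ℝ) ≤
        (2 * H + 1) ^ d * (Real.log (Real.log H)) ^ (-δ) := by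
      refine le_trans ?_ h1
      exact_mod_cast Finset.card_le_card h2
    linarith
  · refine Filter.Eventually.of_forall fun H => ?_
    have hpos : (0 : ℝ) < (2 * (H : ℝ) + 1) ^ d := by positivity
    rw [div_le_one hpos]
    have h1 : ((box (b H) H).filter P).card ≤ (2 * H + 1) ^ d := by
      rw [← card_box (b H) H]
      exact Finset.card_filter_le _ _
    exact_mod_cast h1

theorem result :
    -- one algorithm for all integer linear recurrence sequences
    ∃ A : List (ℕ × ℕ) × List (ℕ × ℕ) →. Bool, Partrec A ∧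
      -- it never errs
      (∀ p u, IsLRS p u → ∀ b ∈ A p, (b = true ↔ ∃ n, u n = 0)) ∧
      -- it halts iff there is a zero or a prime dividing no term
      (∀ p u, IsLRS p u →
        ((A p).Dom ↔ (∃ n, u n = 0) ∨ ∃ q : ℕ, q.Prime ∧ ∀ n, ¬ (q : ℤ) ∣ u n)) ∧
      -- every recurrence of any order whose characteristic roots have multiplicity at most two
      ∀ (d : ℕ) (hd : 1 ≤ d) (c : Fin d → ℤ), c ⟨d - 1, by omega⟩ ≠ 0 →
        (∀ z : ℂ, ((charPoly c).map (Int.castRingHom ℂ)).rootMultiplicity z ≤ 2) →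
        -- at most one double root
        ((∀ z w : ℂ, 2 ≤ ((charPoly c).map (Int.castRingHom ℂ)).rootMultiplicity z →
            2 ≤ ((charPoly c).map (Int.castRingHom ℂ)).rootMultiplicity w → z = w) →
          -- in all large boxes a prime `p ≤ log H` divides no term, for almost all initial values
          (∃ δ : ℝ, 0 < δ ∧ ∃ H₀ : ℕ, ∀ H : ℕ, H₀ ≤ H → ∀ b : Fin d → ℤ,
            (((box b H).filter (fun a => ∀ p : ℕ, p.Prime → (p : ℝ) ≤ Real.log H →
              ∃ u, IsSeq c a u ∧ ∃ n, (p : ℤ) ∣ u n)).card : ℝ) ≤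
              (2 * H + 1) ^ d * (Real.log (Real.log H)) ^ (-δ)) ∧
          -- and the algorithm halts for almost all initial values
          (∀ b : ℕ → Fin d → ℤ, Filter.Tendsto (fun H : ℕ =>
            (((box (b H) H).filter (fun a => (A (code c, code a)).Dom)).card : ℝ) /
              (2 * H + 1) ^ d) Filter.atTop (nhds 1))) ∧
        -- at least two double roots
        ((∃ z w : ℂ, z ≠ w ∧ 2 ≤ ((charPoly c).map (Int.castRingHom ℂ)).rootMultiplicity z ∧
            2 ≤ ((charPoly c).map (Int.castRingHom ℂ)).rootMultiplicity w) →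
          -- for a positive proportion of the initial values every prime divides some term
          ∃ δ : ℝ, 0 < δ ∧ ∃ H₀ : ℕ, ∀ H : ℕ, H₀ ≤ H →
            δ * (2 * H + 1) ^ d ≤
            (((box (0 : Fin d → ℤ) H).filter (fun a => ∀ p : ℕ, p.Prime →
              ∃ u, IsSeq c a u ∧ ∃ n, (p : ℤ) ∣ u n)).card : ℝ)) := by
  obtain ⟨A, hA, h⟩ := algo
  refine ⟨A, hA, fun p u hu => (h p u hu).1, fun p u hu => (h p u hu).2, ?_⟩
  intro d hd c hc hm
  have hchi : charPoly c = chi (fun i => c (Fin.rev i)) := charPoly_eq c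
  have hmon : (charPoly c).Monic := by rw [hchi]; exact chi_monic _
  obtain ⟨ρ, κ, hρ, hκ, hfac, hκρ, hsq⟩ := Pool.Agent.Q38.SK.factor (charPoly c) hmon hm
  have h0 := chi_coeff_zero hd c hc
  have hfac' : chi (fun i => c (Fin.rev i)) = ρ * κ := by rw [← hchi]; exact hfac
  have hdeg : ρ.natDegree + κ.natDegree = d := by
    rw [← hρ.natDegree_mul hκ, ← hfac', chi_natDegree]
  have hle : κ.natDegree ≤ ρ.natDegree := natDegree_le_of_dvd hκρ hρ.ne_zero
  refine ⟨fun hone => ?_, fun htwo => ?_⟩
  · have hκ1 := Pool.Agent.Q38.SK.deg_le_one (charPoly c) ρ κ hmon hfac hκρ hκ hsq hone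
    obtain ⟨δ, hδ, H₀, hr⟩ := Pool.Agent.Q38.SK.rate hd (fun i => c (Fin.rev i)) ρ κ hρ hκ hfac'
      hsq h0 (by omega) hκ1
    have hr' : ∃ δ : ℝ, 0 < δ ∧ ∃ H₀ : ℕ, ∀ H : ℕ, H₀ ≤ H → ∀ b : Fin d → ℤ,
            (((box b H).filter (fun a => ∀ p : ℕ, p.Prime → (p : ℝ) ≤ Real.log H →
              ∃ u, IsSeq c a u ∧ ∃ n, (p : ℤ) ∣ u n)).card : ℝ) ≤
              (2 * H + 1) ^ d * (Real.log (Real.log H)) ^ (-δ) := by
      refine ⟨δ, hδ, H₀, fun H hH b => ?_⟩
      have h1 := hr H hH b
      have h2 : (box b H).filter (fun a => ∀ p : ℕ, p.Prime → (p : ℝ) ≤ Real.log H →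
              ∃ u, IsSeq c a u ∧ ∃ n, (p : ℤ) ∣ u n) =
          (box b H).filter (fun x => ∀ p : ℕ, p.Prime → (p : ℝ) ≤ Real.log H →
            ∃ n, (p : ℤ) ∣ seq (fun i => c (Fin.rev i)) x n) := by
        refine Finset.filter_congr fun a _ => ?_
        simp only [ex_iff]
      rw [h2]
      exact h1
    refine ⟨hr', fun b => density c (fun a => (A (code c, code a)).Dom) ?_ hr' b⟩
    intro a u hu hq
    exact ((h _ u (isLRS_code hd c a hc hu)).2).2 (Or.inr hq)
  · have hκ2 := Pool.Agent.Q38.SK.two_le_deg (charPoly c) ρ κ hmon hfac hκρ hκ hsq htwo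
    obtain ⟨δ, hδ, H₀, hr⟩ := Pool.Agent.Q38.SK.lower (fun i => c (Fin.rev i)) ρ κ hρ hκ hfac'
      hκρ hsq h0 hκ2
    refine ⟨δ, hδ, H₀, fun H hH => ?_⟩
    have h1 := hr H hH
    have h2 : (box (0 : Fin d → ℤ) H).filter (fun a => ∀ p : ℕ, p.Prime →
              ∃ u, IsSeq c a u ∧ ∃ n, (p : ℤ) ∣ u n) =
        (box (0 : Fin d → ℤ) H).filter (fun x => ∀ p : ℕ, p.Prime →
            ∃ n, (p : ℤ) ∣ seq (fun i => c (Fin.rev i)) x n) := by
      refine Finset.filter_congr fun a _ => ?_
      simp only [ex_iff]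
    rw [h2]
    exact h1

end Pool.Agent.Results.MP_8d13b5_lc.DoubleRoots
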