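import Pool.Agent.Q183.SKY.Neg
import Pool.Agent.W403.SK.Sound
import Pool.Agent.W685.SK.Alg

set_option autoImplicit false

/-!
# Computing all zeros, for almost all instances of the Skolem Problem with a zero

Let `c` be an integer recurrence of any order `d ≥ 2` with `c_d ≠ 0` and squarefree characteristic
polynomial that divides no polynomial `X ^ b - r`. For an integral vector `a` let `w` be the
two-sided rational sequence with coefficients `c` and `w_i = a_i` for `i < d`; for `n ≥ 0` these are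
the terms of the instance `(c, a)` of the Skolem Problem. The `a` for which `w` has a zero, at a
nonnegative index (answer yes) or only at negative indices (answer no, but congruences alone prove
nothing), form infinitely many hyperplanes.

* The number of `a` with `|a_i| ≤ H` in each of these two classes has the exact order of magnitude
  `H ^ (d - 1)`.
* Zeros of large index are rare: at most `C (θ ^ k H ^ (d - 1) + H ^ (d - 2) log H)` vectors `a`
  have a zero `w_m = 0` with `|m| ≥ k`, for all `k` and `H`.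
* There is one errorless algorithm, valid for all linear recurrence sequences, which computes the
  set of ALL zeros and which halts for `100%` of the instances with a zero: for all but a
  proportion `H ^ (-δ)` of each of the two classes, `w` has exactly one zero `m` in `ℤ`, a `p`-adic
  certificate with a prime `p ≤ (log H) ^ α` proves that the instance has no other zero, and the
  algorithm returns the set of all zeros.

Proof idea. The hyperplane of all `a` with `w_m = 0` has height at least `exp (κ |m|)`, as `c`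
divides no `X ^ b - r`; so it has few points in the box. A zero `m` of a simple recurrence with
initial values bounded by `H` satisfies `|m| ≤ B log H`, or all terms in the class of `m` modulo a
fixed number vanish (the Subspace Theorem, in the form of the starting result `FiniteRankRoots`).
For `|m| ≤ η log H` the certificates of the starting result `PrescribedZero` are made uniform in
the index `m`. Two of the hyperplanes meet in codimension two.
-/

namespace Pool.Agent.Results.MP_8d13b5_lc.InstancesWithZero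

open Polynomial Pool.Agent.H884R2.Sko Pool.Agent.H692R2.USS Pool.Agent.W935.SK
open scoped Classical

/-- the vectors `a` with `|a_i| ≤ H` for which the instance `(c, a)` of the Skolem Problem has the
answer yes -/
noncomputable def Yes {d : ℕ} (c : Fin d → ℤ) (H : ℕ) : Finset (Fin d → ℤ) :=
  (box (0 : Fin d → ℤ) H).filter (fun a => ∃ u, IsSeq c a u ∧ ∃ n : ℕ, u n = 0)

/-- the vectors `a` with `|a_i| ≤ H` for which the two-sided sequence has a zero `m ∈ ℤ` with
`k ≤ |m|` -/
noncomputable def Zer {d : ℕ} (c : Fin d → ℤ) (H k : ℕ) : Finset (Fin d → ℤ) :=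
  (box (0 : Fin d → ℤ) H).filter (fun a => ∃ w, IsBi c a w ∧ ∃ m : ℤ, (k : ℤ) ≤ |m| ∧ w m = 0)

/-- the vectors `a` with `|a_i| ≤ H` for which the instance `(c, a)` of the Skolem Problem has the
answer no, but the two-sided sequence has a zero (at a negative index) -/
noncomputable def No {d : ℕ} (c : Fin d → ℤ) (H : ℕ) : Finset (Fin d → ℤ) :=
  Zer c H 0 \ Yes c H

theorem result :
    -- one algorithm for all integer linear recurrence sequences; its output is a list of naturals
    ∃ A : List (ℕ × ℕ) × List (ℕ × ℕ) →. List ℕ, Partrec A ∧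
      -- it never errs: the output is the list of all zeros
      (∀ p u, IsLRS p u → ∀ L ∈ A p, ∀ n, u n = 0 ↔ n ∈ L) ∧
      -- every order and every recurrence with squarefree characteristic polynomial
      ∀ (d : ℕ) (hd : 2 ≤ d) (c : Fin d → ℤ), c ⟨d - 1, by omega⟩ ≠ 0 →
        Squarefree ((charPoly c).map (Int.castRingHom ℚ)) →
        (∀ b : ℕ, 1 ≤ b → ∀ r : ℤ, ¬ charPoly c ∣ X ^ b - C r) →
        -- the number of instances with a zero, and the tail of the index of the zero
        (∃ M θ : ℝ, 0 < M ∧ 0 < θ ∧ θ < 1 ∧ ∀ H : ℕ, 2 ≤ H →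
          (2 * (H : ℝ) + 1) ^ (d - 1) ≤ ((Yes c H).card : ℝ) ∧ Yes c H ⊆ Zer c H 0 ∧
          ((Zer c H 0).card : ℝ) ≤ M * (H : ℝ) ^ (d - 1) ∧
          ∀ k : ℕ, ((Zer c H k).card : ℝ) ≤
            M * (θ ^ k * (H : ℝ) ^ (d - 1) + (H : ℝ) ^ (d - 2) * Real.log H)) ∧
        -- all but a proportion `H ^ (-δ)` of the instances with a zero are solved
        ∃ α δ κ : ℝ, 0 < α ∧ 0 < δ ∧ 0 < κ ∧ ∃ H₀ : ℕ, ∀ H : ℕ, H₀ ≤ H →
          κ * (H : ℝ) ^ (d - 1) ≤ ((No c H).card : ℝ) ∧
          ∀ T : Finset (Fin d → ℤ), T = Yes c H ∨ T = No c H →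
            ((T.filter (fun a => ¬ ∃ m : ℤ,
              (∀ w, IsBi c a w → ∀ n : ℤ, w n = 0 ↔ n = m) ∧ HasCert c a m (Real.log H ^ α) ∧
              ∃ L ∈ A (code c, code a), ∀ n : ℕ, n ∈ L ↔ (n : ℤ) = m)).card : ℝ) ≤
            (H : ℝ) ^ (-δ) * (T.card : ℝ) := by
  obtain ⟨A, hA, hA1, hA2⟩ := Pool.Agent.W685.SK.alg Pool.Agent.W403.SK.sound
  refine ⟨A, hA, hA1, ?_⟩
  intro d hd c hc hsq hnd
  have hbi : ∀ a : Fin d → ℤ, (∃ w, IsBi c a w) ∧ ∀ w, IsBi c a w →
      ∀ u, IsSeq c a u → ∀ n : ℕ, w (n : ℤ) = u n := by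
    intro a
    obtain ⟨_, _, _, _, _, _, _, _, _, h2⟩ := bi2 d (by omega) c hc 0
    refine ⟨(h2 a).1, fun w hw u hu n => ?_⟩
    rw [((h2 a).2 w hw).1 n, (isSeq_iff c a u).1 hu n]
  have hlow : ∀ H : ℕ, (2 * (H : ℝ) + 1) ^ (d - 1) ≤ ((Yes c H).card : ℝ) := by
    intro H
    have h1 := Pool.Agent.Q183.SKY.low hd H
    have h2 : ((box (0 : Fin d → ℤ) H).filter (fun a => a ⟨0, by omega⟩ = 0)).card ≤
        (Yes c H).card := by
      refine Finset.card_le_card fun a ha => ?_
      rw [Finset.mem_filter] at ha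
      unfold Yes
      rw [Finset.mem_filter]
      obtain ⟨u, hu⟩ := exists_isSeq c a
      refine ⟨ha.1, u, hu, 0, ?_⟩
      have := hu.1 ⟨0, by omega⟩
      simp only at this
      rw [this, ha.2]
    exact_mod_cast h1.trans h2
  have hYZ : ∀ H : ℕ, Yes c H ⊆ Zer c H 0 := by
    intro H a ha
    unfold Yes at ha
    unfold Zer
    rw [Finset.mem_filter] at ha ⊢
    obtain ⟨hab, u, hu, n, hn⟩ := ha
    obtain ⟨⟨w, hw⟩, h2⟩ := hbi a
    refine ⟨hab, w, hw, n, by simp, ?_⟩
    rw [h2 w hw u hu n, hn, Int.cast_zero]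
  refine ⟨?_, ?_⟩
  · obtain ⟨M, θ, hM, hθ0, hθ1, htail⟩ := Pool.Agent.Q183.SKY.tail hd c hc hsq hnd
    refine ⟨2 * M, θ, by positivity, hθ0, hθ1, fun H hH => ⟨hlow H, hYZ H, ?_, ?_⟩⟩
    · have h1 := htail H hH 0
      unfold Zer
      refine h1.trans ?_
      have hH0 : (0 : ℝ) < H := by
        have : 0 < H := by omega
        exact_mod_cast this
      have h2 : Real.log H ≤ H := (Real.log_le_sub_one_of_pos hH0).trans (by linarith)
      have h3 : (H : ℝ) ^ (d - 1) = (H : ℝ) ^ (d - 2) * H := by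
        rw [← pow_succ]
        congr 1
        omega
      have h4 : (H : ℝ) ^ (d - 2) * Real.log H ≤ (H : ℝ) ^ (d - 2) * H :=
        mul_le_mul_of_nonneg_left h2 (by positivity)
      have h5 : M * ((H : ℝ) ^ (d - 2) * Real.log H) ≤ M * (H : ℝ) ^ (d - 1) := by
        rw [h3]
        exact mul_le_mul_of_nonneg_left h4 hM.le
      rw [pow_zero, one_mul, mul_add]
      linarith
    · intro k
      have h1 := htail H hH k
      unfold Zer
      refine h1.trans ?_
      have hH1 : (1 : ℝ) ≤ H := by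
        have : 1 ≤ H := by omega
        exact_mod_cast this
      have hl := Real.log_nonneg hH1
      have h2 : 0 ≤ θ ^ k * (H : ℝ) ^ (d - 1) + (H : ℝ) ^ (d - 2) * Real.log H := by positivity
      exact mul_le_mul_of_nonneg_right (by linarith) h2
  · obtain ⟨α, δ, hα, hδ, H₀, hmain⟩ := Pool.Agent.Q183.SKY.main hd c hc hsq hnd
    obtain ⟨κ, hκ, H₁, hneg⟩ := Pool.Agent.Q183.SKY.hyp_low hd c hc hsq (-1)
    obtain ⟨H₂, hbig⟩ := ev2 (2 / κ + 1) (δ / 2) (by positivity)
    refine ⟨α, δ / 2, κ / 2, hα, by positivity, by positivity, H₀ + H₁ + H₂ + 1, fun H hH => ?_⟩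
    have hH1 : (1 : ℝ) ≤ H := by
      have : 1 ≤ H := by omega
      exact_mod_cast this
    have hH0 : (0 : ℝ) < H := by linarith
    have h1 := hmain H (by omega)
    obtain ⟨E, hE⟩ : ∃ E : Finset (Fin d → ℤ), E = (box (0 : Fin d → ℤ) H).filter
        (fun a => ∃ w, IsBi c a w ∧ (∃ m : ℤ, w m = 0) ∧
        ¬ ∃ m : ℤ, (∀ n : ℤ, w n = 0 ↔ n = m) ∧ HasCert c a m (Real.log H ^ α)) := ⟨_, rfl⟩
    rw [← hE] at h1
    have hδδ : (H : ℝ) ^ (-δ) = (H : ℝ) ^ (-(δ / 2)) * (H : ℝ) ^ (-(δ / 2)) := by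
      rw [← Real.rpow_add hH0]
      congr 1
      ring
    have hs0 : 0 < (H : ℝ) ^ (-(δ / 2)) := Real.rpow_pos_of_pos hH0 _
    have hs1 : (H : ℝ) ^ (-(δ / 2)) ≤ κ / 2 := by
      rw [Real.rpow_neg hH0.le, inv_le_comm₀ (Real.rpow_pos_of_pos hH0 _) (by positivity)]
      have e1 := hbig H (by omega)
      have e2 : (κ / 2)⁻¹ = 2 / κ := by field_simp
      rw [e2]
      linarith
    have hs2 : (H : ℝ) ^ (-(δ / 2)) ≤ 1 := Real.rpow_le_one_of_one_le_of_nonpos hH1 (by linarith)
    have hP0 : (0 : ℝ) < (H : ℝ) ^ (d - 1) := by positivity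
    -- many instances with answer no
    have hno : κ / 2 * (H : ℝ) ^ (d - 1) ≤ ((No c H).card : ℝ) := by
      have hsub : hyp c (-1) H ⊆ No c H ∪ E := by
        intro a ha
        unfold hyp at ha
        rw [Finset.mem_filter] at ha
        obtain ⟨hab, w, hw, hw1⟩ := ha
        rw [Finset.mem_union]
        by_cases hy : a ∈ Yes c H
        · right
          rw [hE, Finset.mem_filter]
          refine ⟨hab, w, hw, ⟨-1, hw1⟩, ?_⟩
          rintro ⟨m, hm, _⟩
          unfold Yes at hy
          rw [Finset.mem_filter] at hy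
          obtain ⟨_, u, hu, n, hn⟩ := hy
          have e1 : w (n : ℤ) = 0 := by rw [(hbi a).2 w hw u hu n, hn, Int.cast_zero]
          have e2 := (hm _).1 e1
          have e3 := (hm _).1 hw1
          omega
        · left
          unfold No Zer
          rw [Finset.mem_sdiff, Finset.mem_filter]
          exact ⟨⟨hab, w, hw, -1, by simp, hw1⟩, hy⟩
      have e1 := (Finset.card_le_card hsub).trans (Finset.card_union_le _ _)
      have e2 : ((hyp c (-1) H).card : ℝ) ≤ ((No c H).card : ℝ) + (E.card : ℝ) := by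
        exact_mod_cast e1
      have e3 := hneg H (by omega)
      have e4 : (H : ℝ) ^ (d - 1) * (H : ℝ) ^ (-δ) ≤ (H : ℝ) ^ (d - 1) * (κ / 2) := by
        apply mul_le_mul_of_nonneg_left _ hP0.le
        rw [hδδ]
        calc (H : ℝ) ^ (-(δ / 2)) * (H : ℝ) ^ (-(δ / 2)) ≤ (κ / 2) * 1 :=
              mul_le_mul hs1 hs2 hs0.le (by positivity)
          _ = κ / 2 := mul_one _
      have e5 : κ * (H : ℝ) ^ (d - 1) = κ / 2 * (H : ℝ) ^ (d - 1) + (H : ℝ) ^ (d - 1) * (κ / 2) := by
        ring
      linarith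
    refine ⟨hno, fun T hT => ?_⟩
    have hTZ : T ⊆ Zer c H 0 := by
      rcases hT with rfl | rfl
      · exact hYZ H
      · unfold No
        exact Finset.sdiff_subset
    have hsub : T.filter (fun a => ¬ ∃ m : ℤ,
            (∀ w, IsBi c a w → ∀ n : ℤ, w n = 0 ↔ n = m) ∧ HasCert c a m (Real.log H ^ α) ∧
            ∃ L ∈ A (code c, code a), ∀ n : ℕ, n ∈ L ↔ (n : ℤ) = m) ⊆ E := by
      intro a ha
      rw [Finset.mem_filter] at ha
      rw [hE, Finset.mem_filter]
      obtain ⟨ha1, ha2⟩ := ha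
      have ha1 := hTZ ha1
      unfold Zer at ha1
      rw [Finset.mem_filter] at ha1
      obtain ⟨hab, w, hw, m, _, hm⟩ := ha1
      refine ⟨hab, w, hw, ⟨m, hm⟩, ?_⟩
      rintro ⟨m', h2, h3⟩
      apply ha2
      refine ⟨m', fun w' hw' => ?_, h3, ?_⟩
      · rw [Pool.Agent.Q183.SKY.bi_unique (by omega) c hc hw' hw]
        exact h2
      · have hdom := hA2 d (by omega) c a hc (halt bi2 (by omega) c hc a m' _ h3)
        refine ⟨(A (code c, code a)).get hdom, Part.get_mem hdom, fun n => ?_⟩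
        obtain ⟨u, hu⟩ := exists_isSeq c a
        have h4 := hA1 _ u (isLRS_code (by omega) c a hc hu) _ (Part.get_mem hdom) n
        rw [← h4, ← h2 (n : ℤ), (hbi a).2 w hw u hu n]
        exact_mod_cast Iff.rfl
    have hTc : (H : ℝ) ^ (-(δ / 2)) * (H : ℝ) ^ (d - 1) ≤ (T.card : ℝ) := by
      rcases hT with rfl | rfl
      · refine le_trans ?_ (hlow H)
        have e1 : (H : ℝ) ^ (d - 1) ≤ (2 * (H : ℝ) + 1) ^ (d - 1) :=
          pow_le_pow_left₀ (by positivity) (by linarith) _
        calc (H : ℝ) ^ (-(δ / 2)) * (H : ℝ) ^ (d - 1) ≤ 1 * (H : ℝ) ^ (d - 1) :=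
              mul_le_mul_of_nonneg_right hs2 hP0.le
          _ ≤ _ := by rw [one_mul]; exact e1
      · exact (mul_le_mul_of_nonneg_right hs1 hP0.le).trans hno
    calc _ ≤ (E.card : ℝ) := by exact_mod_cast Finset.card_le_card hsub
      _ ≤ (H : ℝ) ^ (d - 1) * (H : ℝ) ^ (-δ) := h1
      _ = (H : ℝ) ^ (-(δ / 2)) * ((H : ℝ) ^ (-(δ / 2)) * (H : ℝ) ^ (d - 1)) := by
          rw [hδδ]
          ring
      _ ≤ (H : ℝ) ^ (-(δ / 2)) * (T.card : ℝ) := mul_le_mul_of_nonneg_left hTc hs0.le

end Pool.Agent.Results.MP_8d13b5_lc.InstancesWithZero
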