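import Mathlib
import Pool.Agent.Q183.SKM.Fin2

/-!
MP_8d13b5_lc, Q1: random matrices; for all but a proportion `H ^ (-δ)` of the integer matrices `M`
in any cube of side `2 H + 1`, the orbits `y, M y, M ^ 2 y, …` of ALL small integer vectors `y`
avoid ALL hyperplanes and ALL hypersurfaces with small coefficients which do not contain `y`, and
there are certificates with a prime which is at most a power of `log H`.
-/

set_option autoImplicit false

namespace Pool.Agent.Results.MP_8d13b5_lc.MatrixInputs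

open Matrix

/-- A certificate that `x ᵀ M ^ n y ≠ 0` for all `n`: a prime `p ≤ (log H) ^ A` such that the
integers `x ᵀ M ^ n y` have the period `(p - 1) / 2` modulo `p` and none of them is divisible
by `p`. -/
def LinearCertificate (A : ℝ) (H : ℕ) {d : ℕ} (M : Matrix (Fin d) (Fin d) ℤ)
    (x y : Fin d → ℤ) : Prop :=
  ∃ p : ℕ, p.Prime ∧ (p : ℝ) ≤ Real.log H ^ A ∧
    (∀ n : ℕ, (p : ℤ) ∣ x ⬝ᵥ (M ^ (n + (p - 1) / 2) *ᵥ y) - x ⬝ᵥ (M ^ n *ᵥ y)) ∧
    ∀ n : ℕ, ¬ (p : ℤ) ∣ x ⬝ᵥ (M ^ n *ᵥ y)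

/-- A certificate that `F (M ^ n y) ≠ 0` for all `n`, where `F` is a form of degree `r`: a prime
`p ≤ (log H) ^ A` with `p ≡ 1` modulo `2 r` such that `M ^ ((p - 1) / (2 r))` is the identity
modulo `p` and none of the integers `F (M ^ n y)` is divisible by `p`. -/
def FormCertificate (A : ℝ) (r H : ℕ) {d : ℕ} (M : Matrix (Fin d) (Fin d) ℤ) (y : Fin d → ℤ)
    (F : MvPolynomial (Fin d) ℤ) : Prop :=
  ∃ p : ℕ, p.Prime ∧ (p : ℝ) ≤ Real.log H ^ A ∧ 2 * r ∣ p - 1 ∧
    (∀ i j, (p : ℤ) ∣ (M ^ ((p - 1) / (2 * r)) - 1) i j) ∧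
    ∀ n : ℕ, ¬ (p : ℤ) ∣ MvPolynomial.eval (M ^ n *ᵥ y) F

/-- The matrices in the cube of side `2 H + 1` with centre `B` which do not have the property
`P`. -/
def exceptions {d : ℕ} (B : Matrix (Fin d) (Fin d) ℤ) (H : ℕ)
    (P : Matrix (Fin d) (Fin d) ℤ → Prop) : Set (Matrix (Fin d) (Fin d) ℤ) :=
  {M | (∀ i j, |M i j - B i j| ≤ H) ∧ ¬ P M}

/-- the entries -/
def en {e : ℕ} (B : Matrix (Fin (e + 1)) (Fin (e + 1)) ℤ) : Fin (e + 1) × Fin (e + 1) → ℤ :=
  fun ij => B ij.1 ij.2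

theorem bridge {e : ℕ} (B : Matrix (Fin (e + 1)) (Fin (e + 1)) ℤ) (H : ℕ)
    (P : Matrix (Fin (e + 1)) (Fin (e + 1)) ℤ → Prop) :
    (exceptions B H P).ncard ≤ Nat.card {v : Fin (e + 1) × Fin (e + 1) → ℤ //
      v ∈ Pool.Agent.H684R3.Smo.bx (en B) H ∧
        ¬ P (Pool.Agent.Q183.SKM.mt v)} := by
  have hfin : Finite {v : Fin (e + 1) × Fin (e + 1) → ℤ //
      v ∈ Pool.Agent.H684R3.Smo.bx (en B) H ∧
        ¬ P (Pool.Agent.Q183.SKM.mt v)} :=
    Finite.of_injective (fun v => (⟨v.1, v.2.1⟩ :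
      {v // v ∈ Pool.Agent.H684R3.Smo.bx (en B) H})) (by
      intro v w hvw
      exact Subtype.ext (congrArg (fun z : {v //
        v ∈ Pool.Agent.H684R3.Smo.bx (en B) H} => z.1) hvw))
  rw [← Nat.card_coe_set_eq]
  refine Nat.card_le_card_of_injective (fun M : exceptions B H P =>
    (⟨en M.1, ?_, ?_⟩ : {v : Fin (e + 1) × Fin (e + 1) → ℤ //
      v ∈ Pool.Agent.H684R3.Smo.bx (en B) H ∧
        ¬ P (Pool.Agent.Q183.SKM.mt v)})) ?_
  · rw [Pool.Agent.Q183.SKM.mem_bx]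
    intro ij
    exact M.2.1 ij.1 ij.2
  · have h1 : Pool.Agent.Q183.SKM.mt (en M.1) =
        M.1 := by
      ext i j
      rfl
    rw [h1]
    exact M.2.2
  · intro M M' h
    apply Subtype.ext
    ext i j
    have h1 := congrArg Subtype.val h
    exact congrFun h1 (i, j)

theorem empty_bound (d : ℕ) (H : ℕ) (δ : ℝ) (S : Set (Matrix (Fin d) (Fin d) ℤ)) (hS : S = ∅) :
    (S.ncard : ℝ) ≤ (2 * (H : ℝ) + 1) ^ (d * d) * (H : ℝ) ^ (-δ) := by
  rw [hS, Set.ncard_empty, Nat.cast_zero]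
  positivity

/-- Let `d` be a number (the size of the matrices).

(1) For every `A > 1` there are `δ > 0` and `H₀` such that for all `H ≥ H₀` and every integer matrix
`B`, all but at most `(2 H + 1) ^ (d * d) * H ^ (-δ)` of the `(2 H + 1) ^ (d * d)` integer matrices
`M` in the cube of side `2 H + 1` with centre `B` have the following property: for ALL integer
vectors `x`, `y` with entries at most `H ^ δ` in absolute value and `x ᵀ y ≠ 0` there is a
certificate that `x ᵀ M ^ n y ≠ 0` for all `n`, with a prime `p ≤ (log H) ^ A`.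

(2) For every `r ≥ 1` there are `A > 0`, `δ > 0` and `H₀` such that the same holds, instead of
`x ᵀ y`, for ALL forms `F` of degree `r` in `d` variables whose coefficients are integers of
absolute value at most `H ^ δ`: if `F (y) ≠ 0` then there is a certificate that
`F (M ^ n y) ≠ 0` for all `n`, with a prime `p ≤ (log H) ^ A`. -/
theorem result (d : ℕ) :
    (∀ A : ℝ, 1 < A → ∃ δ : ℝ, 0 < δ ∧ ∃ H₀ : ℕ, ∀ H : ℕ, H₀ ≤ H →
      ∀ B : Matrix (Fin d) (Fin d) ℤ,
        ((exceptions B H fun M => ∀ x y : Fin d → ℤ, (∀ i, |(x i : ℝ)| ≤ (H : ℝ) ^ δ) →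
          (∀ i, |(y i : ℝ)| ≤ (H : ℝ) ^ δ) → x ⬝ᵥ y ≠ 0 → LinearCertificate A H M x y).ncard :
            ℝ) ≤ (2 * (H : ℝ) + 1) ^ (d * d) * (H : ℝ) ^ (-δ)) ∧
    (∀ r : ℕ, 1 ≤ r → ∃ A δ : ℝ, 0 < A ∧ 0 < δ ∧ ∃ H₀ : ℕ, ∀ H : ℕ, H₀ ≤ H →
      ∀ B : Matrix (Fin d) (Fin d) ℤ,
        ((exceptions B H fun M => ∀ (F : MvPolynomial (Fin d) ℤ) (y : Fin d → ℤ),
          F.IsHomogeneous r → (∀ m, |((F.coeff m : ℤ) : ℝ)| ≤ (H : ℝ) ^ δ) →
          (∀ i, |(y i : ℝ)| ≤ (H : ℝ) ^ δ) → MvPolynomial.eval y F ≠ 0 →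
            FormCertificate A r H M y F).ncard : ℝ) ≤
              (2 * (H : ℝ) + 1) ^ (d * d) * (H : ℝ) ^ (-δ)) := by
  rcases Nat.eq_zero_or_pos d with hd | hd
  · subst hd
    constructor
    · intro A _
      refine ⟨1, one_pos, 0, fun H _ B => empty_bound 0 H 1 _ ?_⟩
      apply Set.eq_empty_of_forall_notMem
      intro M hM
      apply hM.2
      intro x y _ _ hxy
      exact absurd (by simp) hxy
    · intro r hr
      refine ⟨1, 1, one_pos, one_pos, 0, fun H _ B => empty_bound 0 H 1 _ ?_⟩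
      apply Set.eq_empty_of_forall_notMem
      intro M hM
      apply hM.2
      intro F y hF _ _ hne
      exfalso
      apply hne
      have h1 : F.coeff 0 = 0 := by
        by_contra h
        have h2 := hF h
        simp at h2
        omega
      have h3 : F = 0 := by
        ext m
        rw [Subsingleton.elim m 0, h1, MvPolynomial.coeff_zero]
      rw [h3, map_zero]
  · obtain ⟨e, rfl⟩ : ∃ e, d = e + 1 := ⟨d - 1, by omega⟩
    have hc : Fintype.card (Fin (e + 1) × Fin (e + 1)) = (e + 1) * (e + 1) := by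
      rw [Fintype.card_prod, Fintype.card_fin]
    constructor
    · intro A hA
      obtain ⟨δ, hδ, H₀, h⟩ := Pool.Agent.Q183.SKM.main e A hA
      refine ⟨δ, hδ, H₀, fun H hH B => ?_⟩
      have h1 := h H hH (en B)
      rw [hc] at h1
      refine le_trans ?_ h1
      exact_mod_cast bridge B H _
    · intro r hr
      obtain ⟨A, δ, hA, hδ, H₀, h⟩ := Pool.Agent.Q183.SKM.main2 e r hr
      refine ⟨A, δ, hA, hδ, H₀, fun H hH B => ?_⟩
      have h1 := h H hH (en B)
      rw [hc] at h1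
      refine le_trans ?_ h1
      exact_mod_cast bridge B H _

end Pool.Agent.Results.MP_8d13b5_lc.MatrixInputs
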