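import Mathlib
import Pool.Agent.Q160.SK2

set_option autoImplicit false

/-!
# The Skolem Problem for a given sequence perturbed by a recurrence of small order

Let `c` and `e` be integer recurrences with squarefree characteristic polynomials (any orders, any number of
dominant roots, common roots allowed).  We consider the sequences `v + w`, where `v` is a solution of `e` and
`w` a solution of `c`.  For instance `c` may have order one, `w_n = t r ^ n` with one varying integer `t`.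
-/

namespace Pool.Agent.Results.MP_8d13b5_lc.ThinPerturbations

open Polynomial Finset Filter

/-- `u` is the sequence with coefficients `c_1, ..., c_d` and initial values `a`:
`u_{n+d} = ∑ c_i u_{n+d-i}` (here `c_i` is `c (i-1)`). -/
def IsSeq {d : ℕ} (c a : Fin d → ℤ) (u : ℕ → ℤ) : Prop :=
  (∀ i : Fin d, u i = a i) ∧ ∀ n, u (n + d) = ∑ i : Fin d, c i * u (n + d - 1 - i)

/-- the characteristic polynomial `X^d - ∑ c_i X^(d-i)` -/
noncomputable def charPoly {d : ℕ} (c : Fin d → ℤ) : ℤ[X] :=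
  X ^ d - ∑ i : Fin d, C (c i) * X ^ (d - 1 - (i : ℕ))

/-- integer recurrences with squarefree characteristic polynomial and nonzero last coefficient -/
def Simple (d : ℕ) (c : Fin d → ℤ) : Prop :=
  ∃ h : 1 ≤ d, c ⟨d - 1, by omega⟩ ≠ 0 ∧ Squarefree ((charPoly c).map (Int.castRingHom ℚ))

/-- the cube of side `2 H + 1` with centre `b` -/
noncomputable def box {d : ℕ} (b : Fin d → ℤ) (H : ℕ) : Finset (Fin d → ℤ) :=
  Fintype.piFinset fun i => Finset.Icc (b i - H) (b i + H)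

/-- a certificate: `p` is a prime, `u` has period `(p - 1) / 2` modulo `p` and `p` divides no term -/
def Certificate (p : ℕ) (u : ℕ → ℤ) : Prop :=
  p.Prime ∧ (∀ n, (p : ℤ) ∣ u (n + (p - 1) / 2) - u n) ∧ ∀ n, ¬ (p : ℤ) ∣ u n

lemma isSeq_eq {d : ℕ} (c a : Fin d → ℤ) (u : ℕ → ℤ) : IsSeq c a u ↔ Pool.Agent.H884R2.Sko.IsSeq c a u := Iff.rfl

lemma box_eq {d : ℕ} (b : Fin d → ℤ) (H : ℕ) : box b H = Pool.Agent.H884R2.Sko.box b H := by
  ext a
  rw [Pool.Agent.H884R2.Sko.mem_box]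
  unfold box
  rw [Fintype.mem_piFinset]
  refine forall_congr' fun i => ?_
  rw [mem_Icc, abs_le]
  constructor <;> intro h <;> constructor <;> linarith [h.1, h.2]

lemma cert_eq (A : ℝ) (H : ℕ) (u : ℕ → ℤ) :
    Pool.Agent.Q160.SK.CertU A H u ↔ ∃ p : ℕ, (p : ℝ) ≤ Real.log H ^ A ∧ Certificate p u := by
  unfold Pool.Agent.Q160.SK.CertU Certificate
  refine exists_congr fun p => ?_
  tauto

open Classical in
/-- parts (1) and (2) -/
theorem main {d D : ℕ} (c : Fin d → ℤ) (hc : Simple d c) (e : Fin D → ℤ) (he : Simple D e) :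
    ∃ A δ : ℝ, 0 < A ∧ 0 < δ ∧ ∃ H₀ : ℕ, ∀ H : ℕ, H₀ ≤ H → ∀ b : Fin d → ℤ,
      (∀ (a' : Fin D → ℤ) (v : ℕ → ℤ), IsSeq e a' v →
        ∃ E ⊆ box b H, (E.card : ℝ) ≤ (2 * (H : ℝ) + 1) ^ d * (H : ℝ) ^ (-δ) ∧
          ∀ a ∈ box b H \ E, ∀ w, IsSeq c a w →
            ∃ p : ℕ, (p : ℝ) ≤ Real.log H ^ A ∧ Certificate p (fun n => v n + w n)) ∧
      (∀ b' : Fin D → ℤ,
        ∃ E ⊆ box b H, (E.card : ℝ) ≤ (2 * (H : ℝ) + 1) ^ d * (H : ℝ) ^ (-δ) ∧
          ∀ a ∈ box b H \ E, ∀ a' ∈ box b' ⌊(H : ℝ) ^ δ⌋₊, ∀ v w, IsSeq e a' v → IsSeq c a w →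
            ∃ p : ℕ, (p : ℝ) ≤ Real.log H ^ A ∧ Certificate p (fun n => v n + w n)) := by
  obtain ⟨hd, hc1, hc2⟩ := hc
  obtain ⟨hD, he1, he2⟩ := he
  obtain ⟨A, δ, hA, hδ, H₀, h⟩ := Pool.Agent.Q160.SK.thin d hd c hc1 hc2 D hD e he1 he2
  obtain ⟨δ', hδ'⟩ : ∃ δ' : ℝ, δ' = δ / (2 * (D + 1)) := ⟨_, rfl⟩
  have hD0 : (0 : ℝ) < 2 * ((D : ℝ) + 1) := by positivity
  have hδ'0 : 0 < δ' := by rw [hδ']; positivity
  have hδδ : δ' * ((D : ℝ) + 1) = δ / 2 := by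
    rw [hδ']
    field_simp
  have hδle : δ' ≤ δ := by
    have : (0 : ℝ) ≤ D := Nat.cast_nonneg _
    nlinarith
  obtain ⟨H₁, hH₁⟩ := eventually_atTop.1 (((tendsto_rpow_atTop (show 0 < δ / 2 by positivity)).comp
    tendsto_natCast_atTop_atTop).eventually_ge_atTop ((3 : ℝ) ^ D))
  refine ⟨A, δ', hA, hδ'0, max (max H₀ H₁) 1, fun H hH b => ⟨fun a' v hv => ?_, fun b' => ?_⟩⟩
  · have hH1 : (1 : ℝ) ≤ H := by exact_mod_cast le_trans (le_max_right _ _) hH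
    refine ⟨(box b H).filter (fun a => ¬ ∀ w, Pool.Agent.H884R2.Sko.IsSeq c a w →
      Pool.Agent.Q160.SK.CertU A H (fun n => v n + w n)), filter_subset _ _, ?_, ?_⟩
    · have h1 := h a' v hv H (le_trans (le_trans (le_max_left _ _) (le_max_left _ _)) hH) b
      rw [← box_eq] at h1
      refine h1.trans (mul_le_mul_of_nonneg_left ?_ (by positivity))
      exact Real.rpow_le_rpow_of_exponent_le hH1 (by linarith)
    · intro a ha w hw
      rw [Finset.mem_sdiff, mem_filter, not_and, not_not] at ha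
      exact (cert_eq A H _).1 (ha.2 ha.1 w hw)
  · have hH1 : (1 : ℝ) ≤ H := by exact_mod_cast le_trans (le_max_right _ _) hH
    have hHpos : (0 : ℝ) < H := by linarith
    have h3 := hH₁ H (le_trans (le_trans (le_max_right _ _) (le_max_left _ _)) hH)
    simp only [Function.comp] at h3
    obtain ⟨K, hK⟩ : ∃ K, K = ⌊(H : ℝ) ^ δ'⌋₊ := ⟨_, rfl⟩
    rw [← hK]
    have hKr : (K : ℝ) ≤ (H : ℝ) ^ δ' := by rw [hK]; exact Nat.floor_le (by positivity)
    have hone : (1 : ℝ) ≤ (H : ℝ) ^ δ' := Real.one_le_rpow hH1 hδ'0.le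
    refine ⟨(box b' K).biUnion (fun a' => (box b H).filter (fun a => ¬ ∀ w, Pool.Agent.H884R2.Sko.IsSeq c a w →
      Pool.Agent.Q160.SK.CertU A H (fun n => Pool.Agent.H884R2.Sko.seq (fun i => e (Fin.rev i)) a' n + w n))), ?_, ?_, ?_⟩
    · intro a ha
      rw [mem_biUnion] at ha
      obtain ⟨a', _, h4⟩ := ha
      exact (mem_filter.1 h4).1
    · have hcard : ((box b' K).card : ℝ) = (2 * K + 1) ^ D := by
        rw [box_eq, Pool.Agent.H884R2.Sko.card_box]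
        push_cast
        ring
      have h5 : (((box b' K).biUnion (fun a' => (box b H).filter (fun a => ¬ ∀ w, Pool.Agent.H884R2.Sko.IsSeq c a w →
          Pool.Agent.Q160.SK.CertU A H (fun n => Pool.Agent.H884R2.Sko.seq (fun i => e (Fin.rev i)) a' n + w n)))).card : ℝ) ≤
          ∑ _a' ∈ box b' K, (2 * (H : ℝ) + 1) ^ d * (H : ℝ) ^ (-δ) := by
        refine (Nat.cast_le.2 card_biUnion_le).trans ?_
        rw [Nat.cast_sum]
        refine sum_le_sum fun a' _ => ?_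
        have h6 := h a' _ ((Pool.Agent.H884R2.Sko.isSeq_iff e a' _).2 fun n => rfl) H
          (le_trans (le_trans (le_max_left _ _) (le_max_left _ _)) hH) b
        rw [← box_eq] at h6
        exact h6
      refine h5.trans ?_
      rw [sum_const, nsmul_eq_mul, hcard]
      have h6 : (2 * (K : ℝ) + 1) ^ D ≤ 3 ^ D * ((H : ℝ) ^ δ') ^ D := by
        rw [← mul_pow]
        exact pow_le_pow_left₀ (by positivity) (by linarith) D
      have h7 : 3 ^ D * ((H : ℝ) ^ δ') ^ D * (H : ℝ) ^ (-δ) ≤ (H : ℝ) ^ (-δ') := by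
        have h8 : ((H : ℝ) ^ δ') ^ D = (H : ℝ) ^ (δ' * D) := by
          rw [← Real.rpow_natCast, ← Real.rpow_mul hHpos.le]
        calc 3 ^ D * ((H : ℝ) ^ δ') ^ D * (H : ℝ) ^ (-δ) ≤ (H : ℝ) ^ (δ / 2) * ((H : ℝ) ^ δ') ^ D * (H : ℝ) ^ (-δ) := by
              refine mul_le_mul_of_nonneg_right (mul_le_mul_of_nonneg_right h3 (by positivity)) (by positivity)
          _ = (H : ℝ) ^ (δ / 2 + δ' * D + -δ) := by
              rw [h8, Real.rpow_add hHpos, Real.rpow_add hHpos]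
          _ = (H : ℝ) ^ (-δ') := by
              congr 1
              linarith
      calc (2 * (K : ℝ) + 1) ^ D * ((2 * (H : ℝ) + 1) ^ d * (H : ℝ) ^ (-δ))
          ≤ (3 ^ D * ((H : ℝ) ^ δ') ^ D) * ((2 * (H : ℝ) + 1) ^ d * (H : ℝ) ^ (-δ)) :=
            mul_le_mul_of_nonneg_right h6 (by positivity)
        _ = (2 * (H : ℝ) + 1) ^ d * (3 ^ D * ((H : ℝ) ^ δ') ^ D * (H : ℝ) ^ (-δ)) := by ring
        _ ≤ _ := mul_le_mul_of_nonneg_left h7 (by positivity)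
    · intro a ha a' ha' v w hv hw
      rw [Finset.mem_sdiff, mem_biUnion] at ha
      obtain ⟨ha1, ha2⟩ := ha
      have h4 : a ∉ (box b H).filter (fun a => ¬ ∀ w, Pool.Agent.H884R2.Sko.IsSeq c a w →
          Pool.Agent.Q160.SK.CertU A H (fun n => Pool.Agent.H884R2.Sko.seq (fun i => e (Fin.rev i)) a' n + w n)) :=
        fun h9 => ha2 ⟨a', ha', h9⟩
      rw [mem_filter, not_and, not_not] at h4
      have h5 := h4 ha1 w hw
      have h6 : v = fun n => Pool.Agent.H884R2.Sko.seq (fun i => e (Fin.rev i)) a' n :=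
        funext ((Pool.Agent.H884R2.Sko.isSeq_iff e a' v).1 hv)
      rw [h6]
      exact (cert_eq A H _).1 h5

open Classical in
theorem result {d D : ℕ} (c : Fin d → ℤ) (hc : Simple d c) (e : Fin D → ℤ) (he : Simple D e) :
    (∃ A δ : ℝ, 0 < A ∧ 0 < δ ∧ ∃ H₀ : ℕ, ∀ H : ℕ, H₀ ≤ H → ∀ b : Fin d → ℤ,
      (∀ (a' : Fin D → ℤ) (v : ℕ → ℤ), IsSeq e a' v →
        ∃ E ⊆ box b H, (E.card : ℝ) ≤ (2 * (H : ℝ) + 1) ^ d * (H : ℝ) ^ (-δ) ∧
          ∀ a ∈ box b H \ E, ∀ w, IsSeq c a w →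
            ∃ p : ℕ, (p : ℝ) ≤ Real.log H ^ A ∧ Certificate p (fun n => v n + w n)) ∧
      (∀ b' : Fin D → ℤ,
        ∃ E ⊆ box b H, (E.card : ℝ) ≤ (2 * (H : ℝ) + 1) ^ d * (H : ℝ) ^ (-δ) ∧
          ∀ a ∈ box b H \ E, ∀ a' ∈ box b' ⌊(H : ℝ) ^ δ⌋₊, ∀ v w, IsSeq e a' v → IsSeq c a w →
            ∃ p : ℕ, (p : ℝ) ≤ Real.log H ^ A ∧ Certificate p (fun n => v n + w n))) ∧
    (∃ δ : ℝ, 0 < δ ∧ ∃ H₀ : ℕ, ∀ H : ℕ, H₀ ≤ H → ∀ (b : Fin d → ℤ) (m : ℤ),
      ∃ E ⊆ box b H, (E.card : ℝ) ≤ (2 * (H : ℝ) + 1) ^ d * (H : ℝ) ^ (-δ) ∧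
        ∀ a ∈ box b H \ E, ∀ w, IsSeq c a w → ∀ n, (H : ℝ) ^ δ < |((w n - m : ℤ) : ℝ)|) := by
  refine ⟨main c hc e he, ?_⟩
  have h1 : Simple 1 (fun _ => (1 : ℤ)) := by
    refine ⟨le_rfl, one_ne_zero, ?_⟩
    have h2 : (charPoly (fun _ : Fin 1 => (1 : ℤ))).map (Int.castRingHom ℚ) = X - C 1 := by
      unfold charPoly
      simp
    rw [h2]
    exact (irreducible_X_sub_C (1 : ℚ)).squarefree
  obtain ⟨A, δ, _, hδ, H₀, h⟩ := main c hc (fun _ : Fin 1 => (1 : ℤ)) h1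
  refine ⟨δ / 2, by positivity, max H₀ 1, fun H hH b m => ?_⟩
  have hH1 : (1 : ℝ) ≤ H := by exact_mod_cast le_trans (le_max_right _ _) hH
  obtain ⟨E, hE, hcard, hgood⟩ := (h H (le_trans (le_max_left _ _) hH) b).2 (fun _ => -m)
  refine ⟨E, hE, hcard.trans (mul_le_mul_of_nonneg_left ?_ (by positivity)), fun a ha w hw n => ?_⟩
  · exact Real.rpow_le_rpow_of_exponent_le hH1 (by linarith)
  · by_contra hcon
    push Not at hcon
    have h3 : |(w n - m : ℤ)| ≤ (⌊(H : ℝ) ^ δ⌋₊ : ℤ) := by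
      have h4 : ((|(w n - m : ℤ)|).toNat : ℝ) ≤ (H : ℝ) ^ δ := by
        have h5 : ((|(w n - m : ℤ)|).toNat : ℝ) = |((w n - m : ℤ) : ℝ)| := by
          rw [← Int.cast_abs]
          have : (((|(w n - m : ℤ)|).toNat : ℤ)) = |(w n - m : ℤ)| := Int.toNat_of_nonneg (abs_nonneg _)
          exact_mod_cast this
        rw [h5]
        exact hcon.trans (Real.rpow_le_rpow_of_exponent_le hH1 (by linarith))
      have h5 := Nat.le_floor h4
      have h6 : (((|(w n - m : ℤ)|).toNat : ℤ)) ≤ (⌊(H : ℝ) ^ δ⌋₊ : ℤ) := by exact_mod_cast h5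
      rwa [Int.toNat_of_nonneg (abs_nonneg _)] at h6
    have h7 : (fun _ : Fin 1 => - w n) ∈ box (fun _ : Fin 1 => -m) ⌊(H : ℝ) ^ δ⌋₊ := by
      unfold box
      rw [Fintype.mem_piFinset]
      intro _
      rw [mem_Icc]
      rw [abs_le] at h3
      constructor <;> linarith [h3.1, h3.2]
    have h8 : IsSeq (fun _ : Fin 1 => (1 : ℤ)) (fun _ : Fin 1 => - w n) (fun _ => - w n) := by
      refine ⟨fun _ => rfl, fun _ => ?_⟩
      simp
    obtain ⟨p, _, _, _, h9⟩ := hgood a ha _ h7 _ w h8 hw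
    refine h9 n ?_
    simp

end Pool.Agent.Results.MP_8d13b5_lc.ThinPerturbations
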